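import Pool.Agent.Helper9.LP.Num4

/-!
The number `(1 + a t)^(a d / t)` is larger than every power of `d` for `t ≤ δ d`.
-/

set_option autoImplicit false

open Filter

namespace Pool.Agent.Helper84.LLK

open Pool.Agent.Helper9.LP (log_ratio_real)

theorem num_corE {a : ℝ} (ha : 0 < a) (C : ℝ) : ∃ δ : ℝ, 0 < δ ∧ ∃ d₀ : ℕ, ∀ d : ℕ, d₀ ≤ d →
    ∀ t : ℕ, 1 ≤ t → (t : ℝ) ≤ δ * d → (d : ℝ) ^ C ≤ (1 + a * t) ^ (a * d / t) := by
  set δ : ℝ := a / 2 / (|C| + 1) with hδ
  have hδ0 : 0 < δ := by positivity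
  have hl : Tendsto (fun d : ℕ => Real.log d) atTop atTop :=
    Real.tendsto_log_atTop.comp tendsto_natCast_atTop_atTop
  obtain ⟨d₀, hd₀⟩ := ((hl.eventually_ge_atTop (-2 * Real.log (a * δ))).and
    ((hl.eventually_ge_atTop 0).and (eventually_ge_atTop 1))).exists_forall_of_atTop
  refine ⟨δ, hδ0, d₀, fun d hd t ht htd => ?_⟩
  obtain ⟨h1, h2, h3⟩ := hd₀ d hd
  have hd0 : (0 : ℝ) < d := by exact_mod_cast (by omega : 0 < d)
  have ht0 : (0 : ℝ) < t := by exact_mod_cast (by omega : 0 < t)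
  rw [Real.rpow_def_of_pos hd0, Real.rpow_def_of_pos (by positivity), Real.exp_le_exp]
  have h4 := log_ratio_real (show (0 : ℝ) < a * t by positivity)
    (show a * (t : ℝ) ≤ a * (δ * d) from mul_le_mul_of_nonneg_left htd ha.le)
  have h5 : Real.log (a * δ) + Real.log d ≤ Real.log (1 + a * (δ * d)) := by
    rw [← Real.log_mul (by positivity) (by positivity)]
    apply Real.log_le_log (by positivity)
    linarith
  have h6 : 1 / 2 * Real.log d ≤ Real.log (1 + a * (δ * d)) := by linarith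
  have h7 : Real.log (1 + a * (δ * d)) / (δ * d) ≤ Real.log (1 + a * t) / t := by
    rw [div_le_div_iff₀ (by positivity) ht0]
    have h4' : a * ((t : ℝ) * Real.log (1 + a * (δ * d))) ≤
        a * (δ * d * Real.log (1 + a * t)) := by linarith
    have h8 := le_of_mul_le_mul_left h4' ha
    linarith
  have h8 : C ≤ a / 2 / δ := by
    have : a / 2 / δ = |C| + 1 := by
      rw [hδ]
      field_simp
    rw [this]
    have := le_abs_self C
    linarith
  calc Real.log d * C ≤ Real.log d * (a / 2 / δ) := by gcongr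
    _ = a * d * ((1 / 2 * Real.log d) / (δ * d)) := by
        field_simp
    _ ≤ a * d * (Real.log (1 + a * (δ * d)) / (δ * d)) := by gcongr
    _ ≤ a * d * (Real.log (1 + a * t) / t) := by gcongr
    _ = Real.log (1 + a * t) * (a * d / t) := by ring

end Pool.Agent.Helper84.LLK
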