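import Pool.Agent.Helper86.LQ.NumE
import Pool.Agent.Helper65.LP.CondW
import Pool.Agent.Helper85.LP.Final
import Pool.Agent.Helper84.LLK.Cor

/-!
The barrier for the mixed hierarchy of the kissing problem: `k` up to `2^(η d)` conditioned points,
`η < log2 (2/√3)`.
-/

set_option autoImplicit false

open MeasureTheory Finset
open scoped RealInnerProductSpace

namespace Pool.Agent.Helper84.LLK

open Pool.Agent.Helper47.KP (Bd pim sig Sph EE den PP Par)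
open Pool.Agent.Helper47.LB
open Pool.Agent.Helper85.LP
open Pool.Agent.Helper86.LQ

/-- the statement of the density (helper44) -/
def DensW : Prop := ∀ {η : ℝ}, 0 < η → η < Real.logb 2 (2 / √3) →
  ∃ β e₁ : ℝ, 0 < β ∧ 0 < e₁ ∧ ∃ d₀ : ℕ, ∀ (d : ℕ) [NeZero d], d₀ ≤ d →
    ∃ n : ℕ, β * (d - 2) ≤ n + 1 ∧ ∃ g : ℝ → ℝ, Measurable g ∧ (∀ t, 0 ≤ g t) ∧
      (∀ t, g t ≤ 1 + 2 ^ (-η * d)) ∧ (∀ t, 1 / 2 < t → g t = 0) ∧ (∀ t, |g t - 1| ≤ 1) ∧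
      ∫ t, g t ∂(den d) = 1 ∧ ∫ t, (g t - 1) ^ 2 ∂(den d) ≤ VV d ∧
      ∫ t, |g t - 1| ∂(den d) ≤ 2 ^ (-η * d) ∧
      (∀ j, 1 ≤ j → |∫ t, g t * (PP d j).eval t ∂(den d)| ≤ VV d * 2 ^ (-e₁ * d)) ∧
      ∀ j, 1 ≤ j → j ≤ n → ∫ t, g t * (PP d j).eval t ∂(den d) = 0

/-- the statement of the density (helper44), in terms of `q = 2^(-η)` -/
def DensK : Prop := ∀ {q : ℝ}, √(3 / 4) < q → q < 1 →
    ∃ β e : ℝ, 0 < β ∧ β ≤ 1 / 13 ∧ 0 < e ∧ ∃ d₀ : ℕ, ∀ (d : ℕ) [NeZero d], d₀ ≤ d →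
      ∃ g : ℝ → ℝ, Measurable g ∧ (∀ t, 0 ≤ g t) ∧ (∀ t, g t ≤ 1 + q ^ d) ∧
        (∀ t, 1 / 2 < t → g t = 0) ∧ (∀ t, |g t - 1| ≤ 1) ∧ ∫ t, g t ∂(den d) = 1 ∧
        ∫ t, (g t - 1) ^ 2 ∂(den d) ≤ VV d ∧ ∫ t, |g t - 1| ∂(den d) ≤ q ^ d ∧
        (∀ j, 1 ≤ j → |∫ t, g t * (PP d j).eval t ∂(den d)| ≤ VV d * 2 ^ (-e * d)) ∧
        ∀ j, 1 ≤ j → j ≤ ⌊β * ((d - 3 : ℕ) : ℝ)⌋₊ → ∫ t, g t * (PP d j).eval t ∂(den d) = 0

lemma densW_of (h : DensK) : DensW := by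
  intro η hη0 hη
  have h34 : √(3 / 4) = √3 / 2 := by
    rw [Real.sqrt_div (by norm_num), show (4 : ℝ) = 2 ^ 2 by norm_num,
      Real.sqrt_sq (by norm_num)]
  have hs3 : (0 : ℝ) < √3 := by positivity
  have hq : √(3 / 4) < (2 : ℝ) ^ (-η) := by
    rw [Real.lt_logb_iff_rpow_lt (by norm_num) (by positivity)] at hη
    rw [h34, Real.rpow_neg (by norm_num)]
    have h2 : (0 : ℝ) < 2 ^ η := by positivity
    rw [lt_div_iff₀ hs3] at hη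
    rw [div_lt_iff₀ (by norm_num), ← div_eq_inv_mul, lt_div_iff₀ h2]
    linarith
  have hq1 : (2 : ℝ) ^ (-η) < 1 :=
    Real.rpow_lt_one_of_one_lt_of_neg (by norm_num) (by linarith)
  obtain ⟨β, e, hβ, -, he, d₀, hd₀⟩ := h hq hq1
  refine ⟨β / 2, e, by positivity, he, max d₀ 4, fun d _ hd => ?_⟩
  obtain ⟨g, h1, h2, h3, h4, h5, h6, h7, h8, h9, h10⟩ := hd₀ d ((le_max_left _ _).trans hd)
  have hd4 : 4 ≤ d := (le_max_right _ _).trans hd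
  have e1 : ((2 : ℝ) ^ (-η)) ^ d = 2 ^ (-η * d) := by
    rw [← Real.rpow_natCast, ← Real.rpow_mul (by norm_num)]
  rw [e1] at h3 h8
  refine ⟨⌊β * ((d - 3 : ℕ) : ℝ)⌋₊, ?_, g, h1, h2, h3, h4, h5, h6, h7, h8, h9, h10⟩
  have h11 := Nat.lt_floor_add_one (β * ((d - 3 : ℕ) : ℝ))
  have h12 : (4 : ℝ) ≤ d := by exact_mod_cast hd4
  rw [Nat.cast_sub (by omega)] at h11 ⊢
  push_cast at h11 ⊢
  nlinarith

/-- `VV d` is at least `(3/4)^(d/2)` -/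
lemma le_VV {d : ℕ} (hd : 4 ≤ d) : ((3 : ℝ) / 4) ^ ((d : ℝ) / 2) ≤ VV d := by
  have h0 : (0 : ℝ) ≤ √(3 / 4) := Real.sqrt_nonneg _
  have h1 : √(3 / 4) ≤ (1 : ℝ) := by
    exact Real.sqrt_le_one.2 (by norm_num)
  have e2 : ((3 : ℝ) / 4) ^ ((d : ℝ) / 2) = √(3 / 4) ^ d := by
    rw [Real.sqrt_eq_rpow, ← Real.rpow_natCast, ← Real.rpow_mul (by norm_num)]
    congr 1; ring
  rw [e2]
  unfold VV
  have h2 : √(3 / 4) ^ d ≤ √(3 / 4) ^ (d - 3) := pow_le_pow_of_le_one h0 h1 (by omega)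
  have h3 : (1 : ℝ) ≤ √(2 * ((d - 3 : ℕ) : ℝ)) := by
    rw [Real.one_le_sqrt]
    have : (1 : ℝ) ≤ ((d - 3 : ℕ) : ℝ) := by exact_mod_cast (by omega : 1 ≤ d - 3)
    linarith
  calc √(3 / 4) ^ d ≤ 1 * √(3 / 4) ^ (d - 3) := by rw [one_mul]; exact h2
    _ ≤ _ := mul_le_mul_of_nonneg_right h3 (pow_nonneg h0 _)

theorem mixedK_of (hD : DensW) {η : ℝ} (hη : η < Real.logb 2 (2 / √3)) :
    ∃ a δ : ℝ, 0 < a ∧ 0 < δ ∧ ∃ d₀ : ℕ, ∀ d : ℕ, d₀ ≤ d → ∀ t k : ℕ, 1 ≤ t →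
    (t : ℝ) ≤ δ * d → (k : ℝ) ≤ 2 ^ (η * d) →
    ∀ F : Finset (Sph d) → Finset (Sph d) → Finset (Sph d) → ℝ, MFeas d k t F →
      (2 / √3) ^ d * (1 + a * t) ^ (a * d / t) ≤ F ∅ ∅ ∅ := by
  classical
  -- the exponents
  set L := Real.logb 2 (2 / √3) with hL
  have hL0 : 0 < L := by
    rw [hL]
    apply Real.logb_pos (by norm_num)
    rw [lt_div_iff₀ (by positivity), one_mul, Real.sqrt_lt' (by norm_num)]
    norm_num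
  obtain ⟨η₁, h1η, h1L⟩ := exists_between (max_lt hη hL0)
  have hη1 : η < η₁ := (le_max_left _ _).trans_lt h1η
  have hη10 : 0 < η₁ := (le_max_right _ _).trans_lt h1η
  obtain ⟨η₂, h2η, h2L⟩ := exists_between h1L
  obtain ⟨β, e₁, hβ, he₁, d₁, hdens⟩ := hD (hη10.trans h2η) h2L
  obtain ⟨a, δ, ha, hδ, d₂, hnum⟩ := numE hη10 h2η he₁ (cE_pos hβ he₁)
  obtain ⟨d₃, hd₃⟩ := VV_le_one
  refine ⟨a, δ, ha, hδ, max (max d₁ d₂) (max d₃ 8), fun d hd t k ht htd hkd F hf => ?_⟩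
  have hd1 : d₁ ≤ d := le_trans (le_trans (le_max_left _ _) (le_max_left _ _)) hd
  have hd2 : d₂ ≤ d := le_trans (le_trans (le_max_right _ _) (le_max_left _ _)) hd
  have hd3 : d₃ ≤ d := le_trans (le_trans (le_max_left _ _) (le_max_right _ _)) hd
  have hd8 : 8 ≤ d := le_trans (le_trans (le_max_right _ _) (le_max_right _ _)) hd
  have : NeZero d := ⟨by omega⟩
  obtain ⟨n, hn1, g, hgm, hg0, hgG, hgz, hgs, hgI, hgv, hgw, hgj, hgn⟩ := hdens d hd1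
  have hd0 : (0 : ℝ) ≤ d := Nat.cast_nonneg d
  have hkd' : (k : ℝ) ≤ 2 ^ (η₁ * d) := hkd.trans
    (Real.rpow_le_rpow_of_exponent_le (by norm_num) (mul_le_mul_of_nonneg_right hη1.le hd0))
  obtain ⟨N, hN, hNv, h4v, hG2, hkv, hm, hval⟩ := hnum d hd2 t k ht htd hkd'
  have hV0 := VV_pos (show 4 ≤ d by omega)
  have hV1 := hd₃ d hd3
  have hw0 : (0 : ℝ) < 2 ^ (-η₂ * d) := Real.rpow_pos_of_pos (by norm_num) _
  have hgG' : ∀ s, |g s| ≤ 1 + 2 ^ (-η₂ * d) := fun s => by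
    rw [abs_of_nonneg (hg0 s)]; exact hgG s
  have hε0 : 0 ≤ VV d * 2 ^ (-e₁ * d) := mul_nonneg hV0.le (Real.rpow_nonneg (by norm_num) _)
  have hker : Ker (sig d) (fun x y : Sph d => g ⟪(x : EE d), (y : EE d)⟫)
      (1 + (2 : ℝ) ^ (-η₂ * d)) (VV d) (VV d * 2 ^ (-e₁ * d)) := by
    refine ⟨hgm.comp Pool.Agent.Helper47.KP.continuous_inner2.measurable, fun x y => ?_,
      fun x y => hg0 _, fun x y => hgG _, by linarith, fun x y => hgs _,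
      fun x => ?_, hV0, hV1, hε0, op_bound (by omega) hgm hgG' hgI hε0 hgj⟩
    · show g _ = g _
      rw [real_inner_comm]
    · have h1 := Pool.Agent.Helper47.KP.int_zonal_den (show 3 ≤ d by omega) x
        (f := fun s => (g s - 1) ^ 2) ((hgm.sub_const 1).pow_const 2)
      show ∫ y : Sph d, (g ⟪(x : EE d), (y : EE d)⟫ - 1) ^ 2 ∂(sig d) ≤ VV d
      rw [h1]
      exact hgv
  have hKD := kerD_E hd8 hgm hgI hβ he₁ (le_VV (by omega)) (n := n)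
    hn1 hgn hgs hgv hker le_rfl
  have hw : ∀ x : Sph d, ∫ y : Sph d, |g ⟪(x : EE d), (y : EE d)⟫ - 1| ∂(sig d) ≤
      2 ^ (-η₂ * d) := by
    intro x
    have h1 := Pool.Agent.Helper47.KP.int_zonal_den (show 3 ≤ d by omega) x
      (f := fun s => |g s - 1|) ((hgm.sub_const 1).norm)
    rw [h1]
    exact hgw
  refine hval.trans ?_
  refine Pool.Agent.Helper65.LP.abstract_boundMW hKD hw
    (R := fun x y : Sph d => ⟪(x : EE d), (y : EE d)⟫ ≤ 1 / 2)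
    (k := k) (t := t) (F := F)
    (isClosed_le Pool.Agent.Helper47.KP.continuous_inner2 continuous_const)
    (fun x => ?_) (fun x y h => ?_) (fun x y hxy => ?_) (MFeas.pm hf) ht ?_ hN hNv h4v hG2 hkv hm
  · show ¬ ⟪(x : EE d), (x : EE d)⟫ ≤ 1 / 2
    rw [Pool.Agent.Helper47.KP.inner_self_S]; norm_num
  · show ⟪(y : EE d), (x : EE d)⟫ ≤ 1 / 2
    rw [real_inner_comm]
    exact h
  · by_contra hcon
    have hcon' : 1 / 2 < ⟪(x : EE d), (y : EE d)⟫ := not_le.mp hcon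
    exact hxy (hgz _ hcon')
  · intro S hS hSt hSs
    exact hf.le S hS hSt hSs

theorem mixed_all_of (hD : DensW) {η : ℝ} (hη : η < Real.logb 2 (2 / √3)) :
    ∃ a δ : ℝ, 0 < a ∧ 0 < δ ∧ ∃ d₀ : ℕ, ∀ d : ℕ, d₀ ≤ d → ∀ t k : ℕ, 1 ≤ t →
    (t : ℝ) ≤ δ * d → (k : ℝ) ≤ 2 ^ (η * d) →
    ∀ F : Finset (Sph d) → Finset (Sph d) → Finset (Sph d) → ℝ, MFeas d k t F →
      (2 / √3) ^ d * (1 + a * t) ^ (a * d / t) ≤ F ∅ ∅ ∅ ∧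
      ((k : ℝ) ≤ 2 ^ (δ * d) → (2 / √3) ^ d * max ((2 : ℝ) ^ ((0.095 : ℝ) * d / t))
        ((1 + (t : ℝ) / 40) ^ ((0.24 : ℝ) * d / t)) ≤ F ∅ ∅ ∅) := by
  obtain ⟨a, δ₁, ha, hδ₁, d₁, h1⟩ := mixedK_of hD hη
  obtain ⟨δ₂, hδ₂, d₂, h2⟩ := mixed_barrier
  refine ⟨a, min δ₁ δ₂, ha, lt_min hδ₁ hδ₂, max d₁ d₂, fun d hd t k ht htd hkd F hf => ?_⟩
  have hd0 : (0 : ℝ) ≤ d := Nat.cast_nonneg d
  have e1 : min δ₁ δ₂ * (d : ℝ) ≤ δ₁ * d := mul_le_mul_of_nonneg_right (min_le_left _ _) hd0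
  have e2 : min δ₁ δ₂ * (d : ℝ) ≤ δ₂ * d := mul_le_mul_of_nonneg_right (min_le_right _ _) hd0
  exact ⟨h1 d (le_trans (le_max_left _ _) hd) t k ht (htd.trans e1) hkd F hf, fun hk =>
    h2 d (le_trans (le_max_right _ _) hd) t k ht (htd.trans e2)
      (hk.trans (Real.rpow_le_rpow_of_exponent_le (by norm_num) e2)) F hf⟩

theorem mixed_pow_of (hD : DensW) {η : ℝ} (hη : η < Real.logb 2 (2 / √3)) (C : ℝ) :
    ∃ δ : ℝ, 0 < δ ∧ ∃ d₀ : ℕ, ∀ d : ℕ, d₀ ≤ d → ∀ t k : ℕ, 1 ≤ t →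
    (t : ℝ) ≤ δ * d → (k : ℝ) ≤ 2 ^ (η * d) →
    ∀ F : Finset (Sph d) → Finset (Sph d) → Finset (Sph d) → ℝ, MFeas d k t F →
      (2 / √3) ^ d * (d : ℝ) ^ C ≤ F ∅ ∅ ∅ := by
  obtain ⟨a, δ₁, ha, hδ₁, d₁, h1⟩ := mixedK_of hD hη
  obtain ⟨δ₂, hδ₂, d₂, h2⟩ := num_corE ha C
  refine ⟨min δ₁ δ₂, lt_min hδ₁ hδ₂, max d₁ d₂, fun d hd t k ht htd hkd F hf => ?_⟩
  have hd0 : (0 : ℝ) ≤ d := Nat.cast_nonneg d
  have e1 : min δ₁ δ₂ * (d : ℝ) ≤ δ₁ * d := mul_le_mul_of_nonneg_right (min_le_left _ _) hd0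
  have e2 : min δ₁ δ₂ * (d : ℝ) ≤ δ₂ * d := mul_le_mul_of_nonneg_right (min_le_right _ _) hd0
  have h3 := h1 d (le_trans (le_max_left _ _) hd) t k ht (htd.trans e1) hkd F hf
  have h4 := h2 d (le_trans (le_max_right _ _) hd) t ht (htd.trans e2)
  exact le_trans (mul_le_mul_of_nonneg_left h4 (by positivity)) h3

end Pool.Agent.Helper84.LLK
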