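import Pool.Agent.Helper84.LLK.Final
import Pool.Agent.Helper44.LLK.Main

/-!
The barrier for the mixed hierarchy of the kissing problem: `k` up to `2^(η d)` conditioned points,
`η < log2 (2/√3)`; final form.
-/

set_option autoImplicit false

open MeasureTheory Finset
open scoped RealInnerProductSpace

namespace Pool.Agent.Helper84.LLK

open Pool.Agent.Helper47.KP (Bd pim sig Sph EE den PP Par)
open Pool.Agent.Helper85.LP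

lemma densW : DensW := by
  intro η _ hη
  obtain ⟨β, e₁, hβ, -, he, d₀, hd₀, h⟩ := Pool.Agent.Helper44.LLK.exists_densityW hη
  refine ⟨β, e₁, hβ, he, d₀, fun d _ hd => ?_⟩
  obtain ⟨n, h1, h2, g, hg⟩ := h d hd
  exact ⟨n, by nlinarith, g, hg⟩

theorem mixed_all {η : ℝ} (hη : η < Real.logb 2 (2 / √3)) :
    ∃ a δ : ℝ, 0 < a ∧ 0 < δ ∧ ∃ d₀ : ℕ, ∀ d : ℕ, d₀ ≤ d → ∀ t k : ℕ, 1 ≤ t →
    (t : ℝ) ≤ δ * d → (k : ℝ) ≤ 2 ^ (η * d) →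
    ∀ F : Finset (Sph d) → Finset (Sph d) → Finset (Sph d) → ℝ, MFeas d k t F →
      (2 / √3) ^ d * (1 + a * t) ^ (a * d / t) ≤ F ∅ ∅ ∅ ∧
      ((k : ℝ) ≤ 2 ^ (δ * d) → (2 / √3) ^ d * max ((2 : ℝ) ^ ((0.095 : ℝ) * d / t))
        ((1 + (t : ℝ) / 40) ^ ((0.24 : ℝ) * d / t)) ≤ F ∅ ∅ ∅) :=
  mixed_all_of densW hη

theorem mixed_pow {η : ℝ} (hη : η < Real.logb 2 (2 / √3)) (C : ℝ) :
    ∃ δ : ℝ, 0 < δ ∧ ∃ d₀ : ℕ, ∀ d : ℕ, d₀ ≤ d → ∀ t k : ℕ, 1 ≤ t →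
    (t : ℝ) ≤ δ * d → (k : ℝ) ≤ 2 ^ (η * d) →
    ∀ F : Finset (Sph d) → Finset (Sph d) → Finset (Sph d) → ℝ, MFeas d k t F →
      (2 / √3) ^ d * (d : ℝ) ^ C ≤ F ∅ ∅ ∅ :=
  mixed_pow_of densW hη C

end Pool.Agent.Helper84.LLK
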